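import Pool.Agent.U126.W3.Est
import Pool.Agent.H122R3.SX.Link
import Pool.Agent.TH546.SG.Inst2
import Pool.Agent.W840.CT.Final

/-! # Walks in a wedge, with the third power of the logarithm -/

set_option autoImplicit false

namespace Pool.Agent.U126.W3

open Pool.Agent.H122R3.SX
open Pool.Agent.W840.CT (SW cn)

theorem c_eq_cn (n : ℕ) : c n = cn n := by
  rw [← ncard_walks]
  unfold cn
  rw [← Nat.card_coe_set_eq]
  refine Nat.card_congr (Equiv.subtypeEquivRight (fun f => ?_))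
  unfold walks Adj
  constructor
  · rintro ⟨h1, h2, h3⟩
    refine ⟨h1, fun i => ?_, h2⟩
    rw [abs_sub_comm (f i.succ).1, abs_sub_comm (f i.succ).2]
    exact h3 i
  · rintro ⟨h1, h2, h3⟩
    refine ⟨h1, h3, fun i => ?_⟩
    rw [abs_sub_comm (f i.castSucc).1, abs_sub_comm (f i.castSucc).2]
    exact h2 i

theorem Bd_mu : ∃ K : ℝ, Bd H981.mu K := by
  obtain ⟨K, hK, h⟩ := Pool.Agent.TH546.SG.CU2
  refine ⟨K, ⟨?_, hK, fun n _ => ?_, fun n hn => ?_⟩⟩
  · -- `2^n ≤ c n ≤ μ^n exp (K log² n)`, so `μ ≥ 1`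
    by_contra hc
    rw [not_le] at hc
    have hμ := H981.mu_pos
    have h1 : ∀ n : ℕ, 2 ≤ n → (n : ℝ) * Real.log 2 ≤ K * Real.log n ^ 2 := by
      intro n hn
      have h2 := h n hn n le_rfl
      rw [← c_eq_cn] at h2
      have h3 : ((2 : ℕ) ^ n : ℝ) ≤ c n := by exact_mod_cast two_pow_le n
      have h4 : H981.mu ^ n ≤ 1 := pow_le_one₀ hμ.le hc.le
      have h5 : (2 : ℝ) ^ n ≤ Real.exp (K * Real.log n ^ 2) := by
        calc (2 : ℝ) ^ n ≤ c n := by exact_mod_cast h3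
          _ ≤ H981.mu ^ n * Real.exp (K * Real.log n ^ 2) := h2
          _ ≤ 1 * Real.exp (K * Real.log n ^ 2) := by gcongr
          _ = _ := one_mul _
      have h6 := Real.log_le_log (by positivity) h5
      rwa [Real.log_pow, Real.log_exp] at h6
    have h7 : (fun n : ℕ => Real.log (n : ℝ) ^ 2) =o[Filter.atTop] (fun n : ℕ => (n : ℝ)) :=
      ((Real.isLittleO_pow_log_id_atTop (n := 2)).comp_tendsto tendsto_natCast_atTop_atTop)
    have hlog2 : 0 < Real.log 2 := Real.log_pos (by norm_num)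
    have h8 := h7.def (c := Real.log 2 / (2 * (K + 1))) (by positivity)
    obtain ⟨N, hN⟩ := Filter.eventually_atTop.1 h8
    have h9 := hN (max N 2) (le_max_left _ _)
    have h10 := h1 (max N 2) (le_max_right _ _)
    have hn0 : (0 : ℝ) < ((max N 2 : ℕ) : ℝ) := by
      exact_mod_cast lt_of_lt_of_le (by norm_num) (le_max_right N 2)
    rw [Real.norm_of_nonneg (pow_nonneg (Real.log_natCast_nonneg _) 2),
      Real.norm_of_nonneg hn0.le] at h9
    have h11 : K * Real.log ((max N 2 : ℕ) : ℝ) ^ 2 ≤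
        K * (Real.log 2 / (2 * (K + 1)) * ((max N 2 : ℕ) : ℝ)) := by gcongr
    have h12 : K * (Real.log 2 / (2 * (K + 1)) * ((max N 2 : ℕ) : ℝ)) <
        ((max N 2 : ℕ) : ℝ) * Real.log 2 := by
      have h13 : K * (Real.log 2 / (2 * (K + 1))) < Real.log 2 := by
        rw [mul_div_assoc', div_lt_iff₀ (by positivity)]
        nlinarith
      nlinarith
    linarith
  · rw [c_eq_cn]
    exact Pool.Agent.W840.CT.mu_pow_le_cn n
  · rw [c_eq_cn]
    exact h n hn n le_rfl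

/-- **Walks in a wedge.** -/
theorem wedge_final (η : ℝ) (hη : 0 < η) : ∃ K : ℝ, ∀ n : ℕ, 2 ≤ n →
    Real.exp (-(K * Real.log n ^ 3)) ≤
      ({f | f ∈ walks n ∧ ∀ i, |((f i).1 : ℝ)| ≤ η * (f i).2}.ncard : ℝ) /
        ((walks n).ncard : ℝ) := by
  obtain ⟨K, hB⟩ := Bd_mu
  obtain ⟨K6, -, h6⟩ := wedge hB hη
  refine ⟨K6, fun n hn => ?_⟩
  have hμ0 := H981.mu_pos
  have hc : (0 : ℝ) < c n := lt_of_lt_of_le (pow_pos hμ0 n) (hB.low n hn)
  rw [ncard_walks, le_div_iff₀ hc]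
  refine (h6 n hn).trans ?_
  have : wd η n ≤ {f | f ∈ walks n ∧ ∀ i, |((f i).1 : ℝ)| ≤ η * (f i).2}.ncard := by
    unfold wd
    rw [← Set.ncard_coe_finset]
    refine Set.ncard_le_ncard_of_injOn (fw n) ?_ ?_ ((walks_finite n).subset fun f hf => hf.1)
    · intro w hw
      rw [Finset.mem_coe, mem_fs] at hw
      refine ⟨fw_mem hw.1.1 hw.2, fun i => ?_⟩
      exact hw.1.2 _ (List.take_prefix _ _)
    · intro w hw w' hw' h
      rw [Finset.mem_coe, mem_fs] at hw hw'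
      exact fw_inj hw.2 hw'.2 h
  exact_mod_cast this

end Pool.Agent.U126.W3
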